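import Pool.Agent.LC5.Stmts

/-!
# LC5 row BC2: closedness 2, the planar case
-/

set_option autoImplicit false
set_option linter.unusedSimpArgs false

open Topology

namespace Pool.Agent.LC5.H42

open Pool.Agent.LCK

/-- a vector in the plane of two independent vectors -/
theorem plane_coords (A B P : E3) (hAB : LinearIndependent ℝ ![A, B]) (hd : det3 A B P = 0) :
    ∃ p q : ℝ, P = p • A + q • B := by
  rw [LinearIndependent.pair_iff] at hAB
  set N0 : ℝ := A 1 * B 2 - A 2 * B 1 with hN0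
  set N1 : ℝ := A 2 * B 0 - A 0 * B 2 with hN1
  set N2 : ℝ := A 0 * B 1 - A 1 * B 0 with hN2
  set g : ℝ := N0 ^ 2 + N1 ^ 2 + N2 ^ 2 with hg
  have hPN : P 0 * N0 + P 1 * N1 + P 2 * N2 = 0 := by
    rw [← hd]
    simp only [det3, hN0, hN1, hN2]
    ring
  have hg0 : g ≠ 0 := by
    intro h0
    have e0 : N0 = 0 := by nlinarith [sq_nonneg N0, sq_nonneg N1, sq_nonneg N2]
    have e1 : N1 = 0 := by nlinarith [sq_nonneg N0, sq_nonneg N1, sq_nonneg N2]
    have e2 : N2 = 0 := by nlinarith [sq_nonneg N0, sq_nonneg N1, sq_nonneg N2]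
    have h1 := hAB (-(A 0 * B 0 + A 1 * B 1 + A 2 * B 2)) (A 0 ^ 2 + A 1 ^ 2 + A 2 ^ 2) (by
      ext i
      fin_cases i
      · simp only [PiLp.add_apply, PiLp.smul_apply, smul_eq_mul, PiLp.zero_apply, Fin.zero_eta,
          Fin.mk_one, Fin.reduceFinMk]
        linear_combination A 2 * e1 - A 1 * e2
      · simp only [PiLp.add_apply, PiLp.smul_apply, smul_eq_mul, PiLp.zero_apply, Fin.zero_eta,
          Fin.mk_one, Fin.reduceFinMk]
        linear_combination A 0 * e2 - A 2 * e0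
      · simp only [PiLp.add_apply, PiLp.smul_apply, smul_eq_mul, PiLp.zero_apply, Fin.zero_eta,
          Fin.mk_one, Fin.reduceFinMk]
        linear_combination A 1 * e0 - A 0 * e1)
    have h2 : A 0 ^ 2 + A 1 ^ 2 + A 2 ^ 2 = 0 := h1.2
    have a0 : A 0 = 0 := by nlinarith [sq_nonneg (A 0), sq_nonneg (A 1), sq_nonneg (A 2)]
    have a1 : A 1 = 0 := by nlinarith [sq_nonneg (A 0), sq_nonneg (A 1), sq_nonneg (A 2)]
    have a2 : A 2 = 0 := by nlinarith [sq_nonneg (A 0), sq_nonneg (A 1), sq_nonneg (A 2)]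
    have h3 := hAB 1 0 (by
      ext i
      fin_cases i
      · simpa using a0
      · simpa using a1
      · simpa using a2)
    exact one_ne_zero h3.1
  refine ⟨(P 0 * (B 1 * N2 - B 2 * N1) + P 1 * (B 2 * N0 - B 0 * N2)
      + P 2 * (B 0 * N1 - B 1 * N0)) / g,
    (P 0 * (N1 * A 2 - N2 * A 1) + P 1 * (N2 * A 0 - N0 * A 2)
      + P 2 * (N0 * A 1 - N1 * A 0)) / g, ?_⟩
  ext i
  fin_cases i
  · simp only [PiLp.add_apply, PiLp.smul_apply, smul_eq_mul, Fin.zero_eta,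
      Fin.mk_one, Fin.reduceFinMk]
    rw [div_mul_eq_mul_div, div_mul_eq_mul_div, ← add_div, eq_div_iff hg0]
    simp only [hg, hN0, hN1, hN2] at hPN ⊢
    linear_combination (A 1 * B 2 - A 2 * B 1) * hPN
  · simp only [PiLp.add_apply, PiLp.smul_apply, smul_eq_mul, Fin.zero_eta,
      Fin.mk_one, Fin.reduceFinMk]
    rw [div_mul_eq_mul_div, div_mul_eq_mul_div, ← add_div, eq_div_iff hg0]
    simp only [hg, hN0, hN1, hN2] at hPN ⊢
    linear_combination (A 2 * B 0 - A 0 * B 2) * hPN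
  · simp only [PiLp.add_apply, PiLp.smul_apply, smul_eq_mul, Fin.zero_eta,
      Fin.mk_one, Fin.reduceFinMk]
    rw [div_mul_eq_mul_div, div_mul_eq_mul_div, ← add_div, eq_div_iff hg0]
    simp only [hg, hN0, hN1, hN2] at hPN ⊢
    linear_combination (A 0 * B 1 - A 1 * B 0) * hPN

theorem mem_seg {a b x : E3} (s : ℝ) (h0 : 0 ≤ s) (h1 : s ≤ 1) (h : x = a + s • (b - a)) :
    x ∈ segment ℝ a b := by
  rw [segment_eq_image']
  exact ⟨s, ⟨h0, h1⟩, h.symm⟩

theorem no_dj {a b c d x : E3} (h : Dj a b c d) (h1 : x ∈ segment ℝ a b)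
    (h2 : x ∈ segment ℝ c d) : False :=
  Set.notMem_empty x (h ▸ (⟨h1, h2⟩ : x ∈ segment ℝ a b ∩ segment ℝ c d))

theorem bc2 (hSM : SM6Stmt) (hKEY : KEYStmt) (hBC1 : BC1Stmt) : BC2Stmt := by
  intro l hl h4 v hv y₁ y₂ y₃ α β γ τ r hCD hdt
  obtain ⟨hy1, hy2, hy3, hli⟩ := hBC1 l hl v hv y₁ y₂ y₃ α β γ τ r hCD
  obtain ⟨⟨-, -, -, hysum⟩, ⟨hα, hβ, hγ, hαsum⟩, ⟨hτ0, hτ1⟩, ⟨hr0, hr1⟩, hy, hw⟩ := hCD
  obtain ⟨⟨d0, d1, d2, d3, d4⟩, hS⟩ := (hSM.2 l v).1 hv
  obtain ⟨-, -, -, -, -, s03, s04, -, s14, s24⟩ := (hSM.1 v).1 hS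
  set y : E3 := y₁ • v 1 + y₂ • v 2 + y₃ • v 3 with hydef
  -- the point `w` in link 0
  have hw0 : α • y + β • v 3 + γ • v 4 ∈ segment ℝ (v 0) (v 1) := by
    refine mem_seg (1 - r) (by linarith) (by linarith) ?_
    rw [hw]
    module
  obtain ⟨p, q, hpq⟩ := plane_coords _ _ _ hli hdt
  -- (a)
  have hτ : 0 < τ := by
    rcases hτ0.lt_or_eq with h | h
    · exact h
    · exfalso
      have hyv : y = v 4 := by
        rw [hy, ← h]
        module
      refine no_dj s03 hw0 (mem_seg (α + γ) (by linarith) (by linarith) ?_)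
      rw [hyv]
      have hβ' : β = 1 - α - γ := by linarith
      rw [hβ']
      module
  set T : ℝ := 1 / τ with hT
  have hTτ : T * τ = 1 := by
    rw [hT]; field_simp
  have hT1 : 1 ≤ T := by
    rw [hT, le_div_iff₀ hτ]; linarith
  have hv5 : v 5 = v 4 + T • (y - v 4) := by
    rw [hy]
    have : (1 - τ) • v 4 + τ • v 5 - v 4 = τ • (v 5 - v 4) := by module
    rw [this, smul_smul, hTτ]
    module
  have hv4 : v 4 = (1 - p - q) • v 1 + q • v 2 + p • v 3 := by
    have : v 4 = v 1 + (v 4 - v 1) := by module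
    rw [this, hpq]
    module
  -- barycentric coordinates along link 4
  have hφ : ∀ s : ℝ, v 4 + s • (y - v 4) = ((1 - s) * (1 - p - q) + s * y₁) • v 1 +
      ((1 - s) * q + s * y₂) • v 2 + ((1 - s) * p + s * y₃) • v 3 := by
    intro s
    rw [hydef, hv4]
    module
  have hcont : Continuous fun s : ℝ => min ((1 - s) * (1 - p - q) + s * y₁)
      (min ((1 - s) * q + s * y₂) ((1 - s) * p + s * y₃)) := by
    fun_prop
  have hm1 : 0 ≤ min ((1 - (1 : ℝ)) * (1 - p - q) + 1 * y₁)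
      (min ((1 - (1 : ℝ)) * q + 1 * y₂) ((1 - (1 : ℝ)) * p + 1 * y₃)) := by
    refine le_min (by linarith) (le_min (by linarith) (by linarith))
  have hmT : min ((1 - T) * (1 - p - q) + T * y₁)
      (min ((1 - T) * q + T * y₂) ((1 - T) * p + T * y₃)) ≤ 0 := by
    by_contra hcon
    rw [not_le, lt_min_iff, lt_min_iff] at hcon
    obtain ⟨c1, c2, c3⟩ := hcon
    set e1 := (1 - T) * (1 - p - q) + T * y₁ with he1
    set e2 := (1 - T) * q + T * y₂ with he2
    set e3 := (1 - T) * p + T * y₃ with he3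
    have hsum : e1 + e2 + e3 = 1 := by
      have : e1 + e2 + e3 = (1 - T) + T * (y₁ + y₂ + y₃) := by
        rw [he1, he2, he3]; ring
      rw [this, hysum]; ring
    have hv5' : v 5 = e1 • v 1 + e2 • v 2 + e3 • v 3 := by
      rw [hv5, hφ T]
    have hdiff : v 5 - v 4 = e1 • (v 1 - v 4) + e2 • (v 2 - v 4) + e3 • (v 3 - v 4) := by
      have h1 : (v 4 : E3) = (e1 + e2 + e3) • v 4 := by rw [hsum, one_smul]
      nth_rewrite 1 [h1]
      rw [hv5']
      module
    have n3 : ‖v 3 - v 4‖ = l 3 := by rw [← dist_eq_norm, d3]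
    have n2 : ‖v 2 - v 4‖ ≤ l 2 + l 3 := by
      rw [← dist_eq_norm, ← d2, ← d3]; exact dist_triangle _ _ _
    have n1 : ‖v 1 - v 4‖ ≤ l 1 + (l 2 + l 3) := by
      have := dist_triangle (v 1) (v 2) (v 4)
      have h' : dist (v 2) (v 4) ≤ l 2 + l 3 := by
        rw [← d2, ← d3]; exact dist_triangle _ _ _
      rw [← dist_eq_norm]
      linarith
    have hn : ‖v 5 - v 4‖ ≤ e1 * ‖v 1 - v 4‖ + e2 * ‖v 2 - v 4‖ + e3 * ‖v 3 - v 4‖ := by
      rw [hdiff]
      refine (norm_add₃_le).trans ?_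
      rw [norm_smul, norm_smul, norm_smul, Real.norm_of_nonneg c1.le,
        Real.norm_of_nonneg c2.le, Real.norm_of_nonneg c3.le]
    have hn4 : ‖v 5 - v 4‖ = l 4 := by
      rw [← dist_eq_norm, dist_comm, d4]
    rw [hn4] at hn
    have b1 : e1 * ‖v 1 - v 4‖ ≤ e1 * (l 1 + (l 2 + l 3)) := mul_le_mul_of_nonneg_left n1 c1.le
    have b2 : e2 * ‖v 2 - v 4‖ ≤ e2 * (l 2 + l 3) := mul_le_mul_of_nonneg_left n2 c2.le
    have b3 : e3 * ‖v 3 - v 4‖ = e3 * l 3 := by rw [n3]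
    have p1 : 0 < e2 * l 1 := mul_pos c2 (hl 1)
    have p2 : 0 < e3 * (l 1 + l 2) := mul_pos c3 (add_pos (hl 1) (hl 2))
    have hone : e1 * (l 1 + (l 2 + l 3)) + e2 * (l 2 + l 3) + e3 * l 3
        = (e1 + e2 + e3) * (l 1 + l 2 + l 3) - e2 * l 1 - e3 * (l 1 + l 2) := by ring
    rw [hsum, one_mul] at hone
    linarith
  -- (b)
  obtain ⟨s, ⟨hs1, hsT⟩, hs⟩ : ∃ s ∈ Set.Icc (1 : ℝ) T,
      min ((1 - s) * (1 - p - q) + s * y₁)
        (min ((1 - s) * q + s * y₂) ((1 - s) * p + s * y₃)) = 0 := by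
    have := intermediate_value_Icc' hT1 hcont.continuousOn
    exact this ⟨hmT, hm1⟩
  set c1 := (1 - s) * (1 - p - q) + s * y₁ with hc1
  set c2 := (1 - s) * q + s * y₂ with hc2
  set c3 := (1 - s) * p + s * y₃ with hc3
  have g1 : 0 ≤ c1 := hs ▸ min_le_left _ _
  have g2 : 0 ≤ c2 := hs ▸ (min_le_right _ _).trans (min_le_left _ _)
  have g3 : 0 ≤ c3 := hs ▸ (min_le_right _ _).trans (min_le_right _ _)
  have hcsum : c1 + c2 + c3 = 1 := by
    have : c1 + c2 + c3 = (1 - s) + s * (y₁ + y₂ + y₃) := by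
      rw [hc1, hc2, hc3]; ring
    rw [this, hysum]; ring
  have hz : v 4 + s • (y - v 4) = c1 • v 1 + c2 • v 2 + c3 • v 3 := hφ s
  have hs0 : 0 < s := by linarith
  have hT0 : 0 < T := by linarith
  have hz4 : v 4 + s • (y - v 4) ∈ segment ℝ (v 4) (v 5) := by
    refine mem_seg (s / T) (div_nonneg hs0.le hT0.le) ((div_le_one hT0).2 hsT) ?_
    rw [hv5]
    have : v 4 + T • (y - v 4) - v 4 = T • (y - v 4) := by module
    rw [this, smul_smul, div_mul_cancel₀ _ hT0.ne']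
  have hcase : c1 = 0 ∨ c2 = 0 ∨ c3 = 0 := by
    rcases min_choice c1 (min c2 c3) with h | h
    · left; rw [← h]; exact hs
    · rcases min_choice c2 c3 with h' | h'
      · right; left; rw [← h', ← h]; exact hs
      · right; right; rw [← h', ← h]; exact hs
  by_cases e3 : c3 = 0
  · -- in link 1
    refine no_dj s14 (mem_seg c2 g2 (by linarith) ?_) hz4
    rw [hz, e3]
    have : c1 = 1 - c2 := by linarith
    rw [this]
    module
  by_cases e1 : c1 = 0
  · refine no_dj s24 (mem_seg c3 g3 (by linarith) ?_) hz4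
    rw [hz, e1]
    have : c2 = 1 - c3 := by linarith
    rw [this]
    module
  have e2 : c2 = 0 := by
    rcases hcase with h | h | h
    · exact absurd h e1
    · exact h
    · exact absurd h e3
  have c3pos : 0 < c3 := lt_of_le_of_ne g3 (Ne.symm e3)
  have c1pos : 0 < c1 := lt_of_le_of_ne g1 (Ne.symm e1)
  have hzz : v 4 + s • (y - v 4) = v 1 + c3 • (v 3 - v 1) := by
    rw [hz, e2]
    have : c1 = 1 - c3 := by linarith
    rw [this]
    module
  have hyz : y = v 4 + (1 / s) • ((v 1 + c3 • (v 3 - v 1)) - v 4) := by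
    rw [← hzz]
    have : v 4 + s • (y - v 4) - v 4 = s • (y - v 4) := by module
    rw [this, smul_smul, one_div_mul_cancel hs0.ne']
    module
  have hs' : 1 / s ≤ 1 := by
    rw [div_le_one hs0]; exact hs1
  have hs'' : 0 ≤ 1 / s := by positivity
  obtain ⟨x, hx1, hx2⟩ := hKEY (v 1) (v 3) (v 4) c3 (α * (1 / s)) β (γ + α * (1 - 1 / s)) c3pos
    (by linarith) (mul_nonneg hα hs'') hβ
    (add_nonneg hγ (mul_nonneg hα (by linarith))) (by linear_combination hαsum)
  have hweq : (α * (1 / s)) • (v 1 + c3 • (v 3 - v 1)) + β • v 3 + (γ + α * (1 - 1 / s)) • v 4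
      = α • y + β • v 3 + γ • v 4 := by
    rw [hyz]
    module
  rw [hweq] at hx1
  have hx3 : x ∈ segment ℝ (v 0) (v 1) :=
    (convex_segment (v 0) (v 1)).segment_subset (right_mem_segment ℝ _ _) hw0 hx1
  have hx4 : x ∈ segment ℝ (v 4) (v 5) := by
    refine (convex_segment (v 4) (v 5)).segment_subset ?_ (left_mem_segment ℝ _ _) hx2
    rw [← hzz]
    exact hz4
  exact no_dj s04 hx3 hx4

end Pool.Agent.LC5.H42
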