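import Pool.Agent.LC5.Stmts

/-!
# LC5 row MRG: merging the first two links
-/

set_option autoImplicit false

open Topology

namespace Pool.Agent.LC5.H42

open Pool.Agent.LCK

/-- insert a vertex in the first link -/
noncomputable def ins (n : ℕ) (r : ℝ) (w : Fin (n + 2) → E3) : Fin (n + 3) → E3 :=
  Fin.cons (α := fun _ => E3) (w 0)
    (Fin.cons (α := fun _ => E3) (w 0 + r • (w 1 - w 0)) (fun k : Fin (n + 1) => w k.succ))

theorem ins_zero (n : ℕ) (r : ℝ) (w : Fin (n + 2) → E3) : ins n r w 0 = w 0 := rfl

theorem ins_one (n : ℕ) (r : ℝ) (w : Fin (n + 2) → E3) :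
    ins n r w (Fin.succ 0) = w 0 + r • (w 1 - w 0) := rfl

theorem ins_ss (n : ℕ) (r : ℝ) (w : Fin (n + 2) → E3) (k : Fin (n + 1)) :
    ins n r w k.succ.succ = w k.succ := rfl

theorem ins_continuous (n : ℕ) (r : ℝ) : Continuous (ins n r) := by
  refine continuous_pi fun i => ?_
  refine Fin.cases ?_ (fun i => ?_) i
  · exact continuous_apply 0
  · refine Fin.cases ?_ (fun i => ?_) i
    · exact (continuous_apply 0).add (((continuous_apply 1).sub (continuous_apply 0)).const_smul r)
    · exact continuous_apply i.succ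

/-- the middle point and the two halves -/
theorem seg_left (a b : E3) (r : ℝ) (h0 : 0 ≤ r) (h1 : r ≤ 1) :
    segment ℝ a (a + r • (b - a)) ⊆ segment ℝ a b := by
  rw [segment_eq_image', segment_eq_image']
  rintro _ ⟨s, ⟨hs0, hs1⟩, rfl⟩
  refine ⟨s * r, ⟨mul_nonneg hs0 h0, mul_le_one₀ hs1 h0 h1⟩, ?_⟩
  simp only [add_sub_cancel_left, smul_smul]

theorem seg_right (a b : E3) (r : ℝ) (h0 : 0 ≤ r) (h1 : r ≤ 1) :
    segment ℝ (a + r • (b - a)) b ⊆ segment ℝ a b := by
  have hab : a + r • (b - a) ∈ segment ℝ a b := by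
    rw [segment_eq_image']
    exact ⟨r, ⟨h0, h1⟩, rfl⟩
  exact (convex_segment a b).segment_subset hab (right_mem_segment ℝ a b)

theorem seg_union (a b : E3) (r : ℝ) (h0 : 0 < r) (h1 : r < 1) :
    segment ℝ a b ⊆ segment ℝ a (a + r • (b - a)) ∪ segment ℝ (a + r • (b - a)) b := by
  intro x hx
  rw [segment_eq_image'] at hx
  obtain ⟨s, ⟨hs0, hs1⟩, rfl⟩ := hx
  by_cases hs : s ≤ r
  · left
    rw [segment_eq_image']
    refine ⟨s / r, ⟨div_nonneg hs0 h0.le, (div_le_one h0).2 hs⟩, ?_⟩
    simp only [add_sub_cancel_left, smul_smul]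
    rw [div_mul_cancel₀ _ h0.ne']
  · right
    rw [segment_eq_image']
    have hs' : r < s := not_le.1 hs
    have h2 : (0 : ℝ) < 1 - r := by linarith
    refine ⟨(s - r) / (1 - r), ⟨div_nonneg (by linarith) h2.le,
      (div_le_one h2).2 (by linarith)⟩, ?_⟩
    have h3 : b - (a + r • (b - a)) = (1 - r) • (b - a) := by module
    simp only [h3, smul_smul]
    rw [div_mul_cancel₀ _ h2.ne']
    module

theorem seg_inter (a b : E3) (r : ℝ) (h0 : 0 ≤ r) (h1 : r ≤ 1) (hab : a ≠ b) (x : E3)
    (hx : x ∈ segment ℝ a (a + r • (b - a))) (hx' : x ∈ segment ℝ (a + r • (b - a)) b) :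
    x = a + r • (b - a) := by
  rw [segment_eq_image'] at hx hx'
  obtain ⟨s, ⟨hs0, hs1⟩, rfl⟩ := hx
  obtain ⟨t, ⟨ht0, ht1⟩, ht⟩ := hx'
  have h3 : b - (a + r • (b - a)) = (1 - r) • (b - a) := by module
  simp only [h3, add_sub_cancel_left, smul_smul] at ht ⊢
  have hba : b - a ≠ 0 := sub_ne_zero.2 (Ne.symm hab)
  have h4 : (s * r - r - t * (1 - r)) • (b - a) = 0 := by
    have : (s * r - r - t * (1 - r)) • (b - a)
        = (a + (s * r) • (b - a)) - (a + r • (b - a) + (t * (1 - r)) • (b - a)) := by module
    rw [this, ht, sub_self]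
  have h5 : s * r - r - t * (1 - r) = 0 := by
    rcases smul_eq_zero.1 h4 with h | h
    · exact h
    · exact absurd h hba
  have h6 : s * r ≤ r := by nlinarith
  have h7 : 0 ≤ t * (1 - r) := mul_nonneg ht0 (by linarith)
  have h8 : s * r = r := by linarith
  rw [h8]

/-- the right end is not in the left half -/
theorem right_notMem (a b : E3) (r : ℝ) (h0 : 0 ≤ r) (h1 : r < 1) (hab : a ≠ b) :
    b ∉ segment ℝ a (a + r • (b - a)) := by
  intro hb
  have h := seg_inter a b r h0 h1.le hab b hb (right_mem_segment ℝ _ b)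
  have hba : b - a ≠ 0 := sub_ne_zero.2 (Ne.symm hab)
  have h4 : (1 - r) • (b - a) = 0 := by
    have : (1 - r) • (b - a) = b - (a + r • (b - a)) := by module
    rw [this]
    nth_rewrite 1 [h]
    exact sub_self _
  rcases smul_eq_zero.1 h4 with h5 | h5
  · linarith
  · exact hba h5

theorem mg_zero {n : ℕ} (l : Fin (n + 2) → ℝ) : mg l 0 = l 0 + l 1 := rfl

theorem mg_succ {n : ℕ} (l : Fin (n + 2) → ℝ) (k : Fin n) : mg l k.succ = l k.succ.succ := rfl

/-- the image of `Conf (mg l)` -/
theorem ins_mem (n : ℕ) (l : Fin (n + 2) → ℝ) (hl : ∀ k, 0 < l k) (w : Fin (n + 2) → E3)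
    (hw : w ∈ Conf (mg l)) : ins n (l 0 / (l 0 + l 1)) w ∈ Conf l := by
  obtain ⟨hd, hs⟩ := hw
  have h0 := hl 0
  have h1 := hl 1
  have h01 : 0 < l 0 + l 1 := add_pos h0 h1
  set r : ℝ := l 0 / (l 0 + l 1) with hr
  have hr0 : 0 < r := div_pos h0 h01
  have hr1 : r < 1 := (div_lt_one h01).2 (by linarith)
  have hd0 : dist (w 0) (w 1) = l 0 + l 1 := hd 0
  have hne : w 0 ≠ w 1 := by
    intro h
    rw [h, dist_self] at hd0
    linarith
  have hrl : r * (l 0 + l 1) = l 0 := div_mul_cancel₀ _ h01.ne'
  constructor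
  · intro k
    refine Fin.cases ?_ (fun k => ?_) k
    · change dist (w 0) (w 0 + r • (w 1 - w 0)) = l 0
      rw [dist_self_add_right, norm_smul, Real.norm_of_nonneg hr0.le, ← dist_eq_norm,
        dist_comm, hd0, hrl]
    · refine Fin.cases ?_ (fun k => ?_) k
      · change dist (w 0 + r • (w 1 - w 0)) (w 1) = l 1
        have h3 : w 1 - (w 0 + r • (w 1 - w 0)) = (1 - r) • (w 1 - w 0) := by module
        rw [dist_comm, dist_eq_norm, h3, norm_smul, Real.norm_of_nonneg (by linarith),
          ← dist_eq_norm, dist_comm, hd0]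
        linarith
      · exact hd k.succ
  · intro i j hij
    revert hij
    refine Fin.cases ?_ (fun i => ?_) i
    · refine Fin.cases ?_ (fun j => ?_) j
      · intro h
        exact absurd h (lt_irrefl _)
      · refine Fin.cases ?_ (fun j => ?_) j
        · intro _
          have hc : ((Fin.succ 0 : Fin (n + 2)) : ℕ) = ((0 : Fin (n + 2)) : ℕ) + 1 := by simp
          rw [if_pos hc]
          change segment ℝ (w 0) (w 0 + r • (w 1 - w 0)) ∩
            segment ℝ (w 0 + r • (w 1 - w 0)) (w 1) = {w 0 + r • (w 1 - w 0)}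
          ext x
          simp only [Set.mem_inter_iff, Set.mem_singleton_iff]
          constructor
          · rintro ⟨ha, hb⟩
            exact seg_inter _ _ r hr0.le hr1.le hne x ha hb
          · rintro rfl
            exact ⟨right_mem_segment ℝ _ _, left_mem_segment ℝ _ _⟩
        · intro _
          have hc : ¬ ((j.succ.succ : Fin (n + 2)) : ℕ) = ((0 : Fin (n + 2)) : ℕ) + 1 := by
            simp
          rw [if_neg hc]
          change segment ℝ (w 0) (w 0 + r • (w 1 - w 0)) ∩
            segment ℝ (w j.castSucc.succ) (w j.succ.succ) = ∅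
          rw [Set.eq_empty_iff_forall_notMem]
          rintro x ⟨hx, hx'⟩
          have h4 := hs 0 j.succ (Fin.succ_pos j)
          have hx2 : x ∈ segment ℝ (w (Fin.castSucc 0)) (w (Fin.succ 0)) ∩
              segment ℝ (w j.succ.castSucc) (w j.succ.succ) :=
            ⟨seg_left _ _ r hr0.le hr1.le hx, hx'⟩
          rw [h4] at hx2
          by_cases hj : ((j.succ : Fin (n + 1)) : ℕ) = ((0 : Fin (n + 1)) : ℕ) + 1
          · rw [if_pos hj, Set.mem_singleton_iff] at hx2
            rw [hx2] at hx
            exact right_notMem (w 0) (w 1) r hr0.le hr1 hne hx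
          · rw [if_neg hj] at hx2
            exact hx2
    · refine Fin.cases ?_ (fun j => ?_) j
      · intro h
        exact absurd h (Fin.not_lt_zero _)
      · refine Fin.cases ?_ (fun i => ?_) i
        · refine Fin.cases ?_ (fun j => ?_) j
          · intro h
            exact absurd h (lt_irrefl _)
          · intro _
            have h4 := hs 0 j.succ (Fin.succ_pos j)
            have hcc : (((j.succ.succ : Fin (n + 2)) : ℕ) = ((Fin.succ 0 : Fin (n + 2)) : ℕ) + 1)
                ↔ (((j.succ : Fin (n + 1)) : ℕ) = ((0 : Fin (n + 1)) : ℕ) + 1) := by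
              simp
            change segment ℝ (w 0 + r • (w 1 - w 0)) (w 1) ∩
              segment ℝ (w j.castSucc.succ) (w j.succ.succ) = _
            apply Set.Subset.antisymm
            · rintro x ⟨hx, hx'⟩
              have hx2 : x ∈ segment ℝ (w (Fin.castSucc 0)) (w (Fin.succ 0)) ∩
                  segment ℝ (w j.succ.castSucc) (w j.succ.succ) :=
                ⟨seg_right _ _ r hr0.le hr1.le hx, hx'⟩
              rw [h4] at hx2
              by_cases hj : ((j.succ : Fin (n + 1)) : ℕ) = ((0 : Fin (n + 1)) : ℕ) + 1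
              · rw [if_pos (hcc.2 hj)]
                rw [if_pos hj] at hx2
                exact hx2
              · rw [if_neg hj] at hx2
                exact absurd hx2 (Set.notMem_empty x)
            · by_cases hj : ((j.succ : Fin (n + 1)) : ℕ) = ((0 : Fin (n + 1)) : ℕ) + 1
              · rw [if_pos (hcc.2 hj)]
                rintro x hx
                have hx3 : x = w 1 := hx
                rw [if_pos hj] at h4
                have h5 : (w (Fin.succ 0) : E3) ∈ segment ℝ (w (Fin.castSucc 0)) (w (Fin.succ 0)) ∩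
                  segment ℝ (w j.succ.castSucc) (w j.succ.succ) := by
                  rw [h4]
                  exact Set.mem_singleton _
                rw [hx3]
                exact ⟨right_mem_segment ℝ _ _, h5.2⟩
              · rw [if_neg (fun h => hj (hcc.1 h))]
                exact Set.empty_subset _
        · refine Fin.cases ?_ (fun j => ?_) j
          · intro h
            exact absurd (Fin.succ_lt_succ_iff.1 h) (Fin.not_lt_zero _)
          · intro h
            have h2 : i.succ < j.succ := Fin.succ_lt_succ_iff.1 h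
            have h4 := hs i.succ j.succ h2
            have hcc : (((j.succ.succ : Fin (n + 2)) : ℕ) = ((i.succ.succ : Fin (n + 2)) : ℕ) + 1)
                ↔ (((j.succ : Fin (n + 1)) : ℕ) = ((i.succ : Fin (n + 1)) : ℕ) + 1) := by
              simp only [Fin.val_succ]
              omega
            change segment ℝ (w i.castSucc.succ) (w i.succ.succ) ∩
              segment ℝ (w j.castSucc.succ) (w j.succ.succ) = _
            change segment ℝ (w i.castSucc.succ) (w i.succ.succ) ∩
              segment ℝ (w j.castSucc.succ) (w j.succ.succ) = _ at h4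
            rw [h4]
            by_cases hj : ((j.succ : Fin (n + 1)) : ℕ) = ((i.succ : Fin (n + 1)) : ℕ) + 1
            · rw [if_pos hj, if_pos (hcc.2 hj)]
              rfl
            · rw [if_neg hj, if_neg (fun h => hj (hcc.1 h))]

/-- forget the second vertex -/
noncomputable def fg (n : ℕ) (v : Fin (n + 3) → E3) : Fin (n + 2) → E3 :=
  Fin.cons (α := fun _ => E3) (v 0) (fun k : Fin (n + 1) => v k.succ.succ)

theorem fg_mem (n : ℕ) (l : Fin (n + 2) → ℝ) (hl : ∀ k, 0 < l k) (v : Fin (n + 3) → E3)
    (hv : v ∈ Conf l) (h : v 0 = v 1 - (l 0 / l 1) • (v 2 - v 1)) :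
    fg n v ∈ Conf (mg l) ∧ ins n (l 0 / (l 0 + l 1)) (fg n v) = v := by
  obtain ⟨hd, hs⟩ := hv
  have h0 := hl 0
  have h1 := hl 1
  have h01 : 0 < l 0 + l 1 := add_pos h0 h1
  have h2e : (2 : Fin (n + 3)) = (0 : Fin (n + 1)).succ.succ := by
    ext; simp
  have h1e : (1 : Fin (n + 3)) = (0 : Fin (n + 2)).succ := by
    ext; simp
  rw [h2e, h1e] at h
  set a : E3 := v 0 with ha
  set m : E3 := v (0 : Fin (n + 2)).succ with hm
  set b : E3 := v (0 : Fin (n + 1)).succ.succ with hb
  set r : ℝ := l 0 / (l 0 + l 1) with hr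
  have hr0 : 0 < r := div_pos h0 h01
  have hr1 : r < 1 := (div_lt_one h01).2 (by linarith)
  have hba : b - a = ((l 0 + l 1) / l 1) • (b - m) := by
    rw [h]
    have : (l 0 + l 1) / l 1 = 1 + l 0 / l 1 := by field_simp; ring
    rw [this]
    module
  have hm' : m = a + r • (b - a) := by
    rw [hba, smul_smul, h]
    have : r * ((l 0 + l 1) / l 1) = l 0 / l 1 := by
      rw [hr]; field_simp
    rw [this]
    module
  have hd1 : dist m b = l 1 := hd 1
  have hdab : dist a b = l 0 + l 1 := by
    rw [dist_comm, dist_eq_norm, hba, norm_smul, Real.norm_of_nonneg (div_pos h01 h1).le,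
      ← dist_eq_norm, dist_comm, hd1, div_mul_cancel₀ _ h1.ne']
  constructor
  · constructor
    · intro k
      refine Fin.cases ?_ (fun k => ?_) k
      · exact hdab
      · exact hd k.succ.succ
    · intro i j hij
      revert hij
      refine Fin.cases ?_ (fun i => ?_) i
      · refine Fin.cases ?_ (fun j => ?_) j
        · intro h
          exact absurd h (lt_irrefl _)
        · intro _
          change segment ℝ a b ∩ segment ℝ (v j.succ.succ.castSucc) (v j.succ.succ.succ) = _
          have h5 := hs 0 j.succ.succ (Fin.succ_pos _)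
          have h6 := hs (Fin.succ 0) j.succ.succ (by
            rw [Fin.succ_lt_succ_iff]; exact Fin.succ_pos _)
          have hc0 : ¬ ((j.succ.succ : Fin (n + 2)) : ℕ) = ((0 : Fin (n + 2)) : ℕ) + 1 := by
            simp
          rw [if_neg hc0] at h5
          have hcc : (((j.succ.succ : Fin (n + 2)) : ℕ) = ((Fin.succ 0 : Fin (n + 2)) : ℕ) + 1)
                ↔ (((j.succ : Fin (n + 1)) : ℕ) = ((0 : Fin (n + 1)) : ℕ) + 1) := by
              simp
          apply Set.Subset.antisymm
          · rintro x ⟨hx, hx'⟩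
            rcases seg_union a b r hr0 hr1 hx with hy | hy
            · rw [← hm'] at hy
              exact absurd (h5 ▸ (⟨hy, hx'⟩ : x ∈ segment ℝ (v (Fin.castSucc 0)) (v (Fin.succ 0)) ∩
                segment ℝ (v j.succ.succ.castSucc) (v j.succ.succ.succ))) (Set.notMem_empty x)
            · rw [← hm'] at hy
              have hz : x ∈ segment ℝ (v (Fin.succ 0 : Fin (n + 2)).castSucc)
                  (v (Fin.succ 0 : Fin (n + 2)).succ) ∩
                segment ℝ (v j.succ.succ.castSucc) (v j.succ.succ.succ) := ⟨hy, hx'⟩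
              rw [h6] at hz
              by_cases hj : ((j.succ : Fin (n + 1)) : ℕ) = ((0 : Fin (n + 1)) : ℕ) + 1
              · rw [if_pos hj]
                rw [if_pos (hcc.2 hj)] at hz
                exact hz
              · rw [if_neg (fun h => hj (hcc.1 h))] at hz
                exact absurd hz (Set.notMem_empty x)
          · by_cases hj : ((j.succ : Fin (n + 1)) : ℕ) = ((0 : Fin (n + 1)) : ℕ) + 1
            · rw [if_pos hj]
              intro x hx
              have hxb : x = b := hx
              rw [if_pos (hcc.2 hj)] at h6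
              have h7 : b ∈ segment ℝ (v (Fin.succ 0 : Fin (n + 2)).castSucc)
                  (v (Fin.succ 0 : Fin (n + 2)).succ) ∩
                segment ℝ (v j.succ.succ.castSucc) (v j.succ.succ.succ) := by
                rw [h6]
                exact Set.mem_singleton _
              rw [hxb]
              exact ⟨right_mem_segment ℝ _ _, h7.2⟩
            · rw [if_neg hj]
              exact Set.empty_subset _
      · refine Fin.cases ?_ (fun j => ?_) j
        · intro h
          exact absurd h (Fin.not_lt_zero _)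
        · intro h
          have h2 : i.succ.succ < j.succ.succ := Fin.succ_lt_succ_iff.2 h
          have h4 := hs i.succ.succ j.succ.succ h2
          have hcc : (((j.succ.succ : Fin (n + 2)) : ℕ) = ((i.succ.succ : Fin (n + 2)) : ℕ) + 1)
                ↔ (((j.succ : Fin (n + 1)) : ℕ) = ((i.succ : Fin (n + 1)) : ℕ) + 1) := by
              simp only [Fin.val_succ]
              omega
          change segment ℝ (v i.succ.succ.castSucc) (v i.succ.succ.succ) ∩
              segment ℝ (v j.succ.succ.castSucc) (v j.succ.succ.succ) = _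
          rw [h4]
          by_cases hj : ((j.succ : Fin (n + 1)) : ℕ) = ((i.succ : Fin (n + 1)) : ℕ) + 1
          · rw [if_pos hj, if_pos (hcc.2 hj)]
            rfl
          · rw [if_neg hj, if_neg (fun h => hj (hcc.1 h))]
  · funext k
    refine Fin.cases ?_ (fun k => ?_) k
    · rfl
    · refine Fin.cases ?_ (fun k => ?_) k
      · change a + r • (b - a) = m
        exact hm'.symm
      · rfl

theorem joined_pre {X : Type} [TopologicalSpace X] {S : Set X} {x y : X} (h : JoinedIn S x y) :
    ∃ t ⊆ S, x ∈ t ∧ y ∈ t ∧ IsPreconnected t := by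
  obtain ⟨γ, hγ⟩ := h
  refine ⟨Set.range γ, ?_, ⟨0, γ.source⟩, ⟨1, γ.target⟩, isPreconnected_range γ.continuous⟩
  rintro _ ⟨t, rfl⟩
  exact hγ t

theorem mrg : MRGStmt := by
  intro n l hl H hpre
  set S : Set (Fin (n + 3) → E3) := ins n (l 0 / (l 0 + l 1)) '' Conf (mg l) with hS
  have hSpre : IsPreconnected S := hpre.image _ (ins_continuous n _).continuousOn
  have hSsub : S ⊆ Conf l := by
    rintro _ ⟨w, hw, rfl⟩
    exact ins_mem n l hl w hw
  have key : ∀ v ∈ Conf l, ∃ t ⊆ Conf l, v ∈ t ∧ S ⊆ t ∧ IsPreconnected t := by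
    intro v hv
    obtain ⟨v', hv', hj, hst⟩ := H v hv
    obtain ⟨hf1, hf2⟩ := fg_mem n l hl v' hv' hst
    obtain ⟨t, ht, hvt, hv't, hpt⟩ := joined_pre hj
    have hv'S : v' ∈ S := ⟨fg n v', hf1, hf2⟩
    exact ⟨t ∪ S, Set.union_subset ht hSsub, Or.inl hvt, Set.subset_union_right,
      IsPreconnected.union v' hv't hv'S hpt hSpre⟩
  refine isPreconnected_of_forall_pair fun v hv u hu => ?_
  obtain ⟨t, ht, hvt, hSt, hpt⟩ := key v hv
  obtain ⟨t', ht', hut, hSt', hpt'⟩ := key u hu
  obtain ⟨v', hv', -, hst⟩ := H v hv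
  obtain ⟨hf1, hf2⟩ := fg_mem n l hl v' hv' hst
  have hv'S : v' ∈ S := ⟨fg n v', hf1, hf2⟩
  exact ⟨t ∪ t', Set.union_subset ht ht', Or.inl hvt, Or.inr hut,
    IsPreconnected.union v' (hSt hv'S) (hSt' hv'S) hpt hpt'⟩

end Pool.Agent.LC5.H42
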